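import Pool.Agent.H137R5.TowFree

/-!
# Powers with exponents `π` and `e`: strong six exponentials with the rows `1`, `b`
-/

set_option autoImplicit false

namespace Pool.Agent.V11252.NP

open Pool.Agent.H301R2.SSE Pool.Agent.H340R2 Pool.Agent.H462R2.PiE Pool.Agent.H137R5.Tow

/-- `t > 0` and `log t` is in `Lt` -/
def InP (t : ℝ) : Prop := 0 < t ∧ ((Real.log t : ℝ) : ℂ) ∈ Lt

/-- multiplicative independence -/
def MInd {r : ℕ} (α : Fin r → ℝ) : Prop := ∀ k : Fin r → ℤ, ∏ i, α i ^ k i = 1 → k = 0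

theorem inP_rpow {α : ℝ} (hα : 0 < α) {b : ℝ} :
    InP (α ^ b) ↔ (b : ℂ) * ((Real.log α : ℝ) : ℂ) ∈ Lt := by
  unfold InP
  rw [Real.log_rpow hα]
  push_cast
  exact ⟨fun h => h.2, fun h => ⟨Real.rpow_pos_of_pos hα b, h⟩⟩

theorem inP_alg {t : ℝ} (ht : 0 < t) (h : IsAlgebraic ℚ t) : InP t := ⟨ht, log_mem' ht h⟩

theorem inP_mul {s t : ℝ} (hs : InP s) (ht : InP t) : InP (s * t) := by
  refine ⟨mul_pos hs.1 ht.1, ?_⟩
  rw [Real.log_mul hs.1.ne' ht.1.ne']
  push_cast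
  exact Lt.add_mem hs.2 ht.2

theorem inP_div {s t : ℝ} (hs : InP s) (ht : InP t) : InP (s / t) := by
  refine ⟨div_pos hs.1 ht.1, ?_⟩
  rw [Real.log_div hs.1.ne' ht.1.ne']
  push_cast
  exact Lt.sub_mem hs.2 ht.2

theorem ratInd {r : ℕ} (α : Fin r → ℝ) (hα : ∀ i, 0 < α i) (hi : MInd α) (p : Fin r → ℚ)
    (hp : ∑ i, (p i : ℝ) * Real.log (α i) = 0) : ∀ i, p i = 0 := by
  have h0 : LinearIndependent ℤ (fun i => Real.log (α i)) := by
    rw [Fintype.linearIndependent_iff]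
    intro k hk
    have h1 : ∏ i, α i ^ k i = 1 := by
      have hpos : 0 < ∏ i, α i ^ k i := Finset.prod_pos fun i _ => zpow_pos (hα i) _
      have hlog : Real.log (∏ i, α i ^ k i) = 0 := by
        rw [Real.log_prod (fun i _ => (zpow_pos (hα i) _).ne')]
        simp only [Real.log_zpow]
        simpa [zsmul_eq_mul] using hk
      rw [← Real.exp_log hpos, hlog, Real.exp_zero]
    have := hi k h1
    intro i
    rw [this]; rfl
  have h1 : LinearIndependent ℚ (fun i => Real.log (α i)) :=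
    (LinearIndependent.iff_fractionRing ℤ ℚ).mp h0
  rw [Fintype.linearIndependent_iff] at h1
  exact h1 p (by simpa [Rat.smul_def] using hp)

theorem ind3_three (α : Fin 3 → ℝ) (hα : ∀ i, 0 < α i) (ha : ∀ i, IsAlgebraic ℚ (α i))
    (hi : MInd α) : Ind3 ((Real.log (α 0) : ℝ) : ℂ) ((Real.log (α 1) : ℝ) : ℂ)
      ((Real.log (α 2) : ℝ) : ℂ) := by
  intro a c d ha' hc hd hs
  have := bkn (fun i => Real.log (α i)) (fun i => by rw [Real.exp_log (hα i)]; exact ha i)
    (ratInd α hα hi) 0 0 ![a, c, d] isAlgebraic_zero isAlgebraic_zero (by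
      intro i
      fin_cases i
      · exact ha'
      · exact hc
      · exact hd) (by
      rw [Fin.sum_univ_three]
      simp only [Matrix.cons_val_zero, Matrix.cons_val_one, Matrix.cons_val]
      linear_combination hs)
  exact ⟨this.2.1 0, this.2.1 1, this.2.1 2⟩

/-- a combination of `1` and `π` with algebraic coefficients, not both zero, and two logarithms -/
theorem ind3_two (α : Fin 2 → ℝ) (hα : ∀ i, 0 < α i) (ha : ∀ i, IsAlgebraic ℚ (α i))
    (hi : MInd α) (u v : ℂ) (hu : IsAlgebraic ℚ u) (hv : IsAlgebraic ℚ v) (huv : u ≠ 0 ∨ v ≠ 0) :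
    Ind3 (u + v * (Real.pi : ℂ)) ((Real.log (α 0) : ℝ) : ℂ) ((Real.log (α 1) : ℝ) : ℂ) := by
  intro a c d ha' hc hd hs
  have := bkn (fun i => Real.log (α i)) (fun i => by rw [Real.exp_log (hα i)]; exact ha i)
    (ratInd α hα hi) (a * u) (a * v) ![c, d] (ha'.mul hu) (ha'.mul hv) (by
      intro i
      fin_cases i
      · exact hc
      · exact hd) (by
      rw [Fin.sum_univ_two]
      simp only [Matrix.cons_val_zero, Matrix.cons_val_one]
      linear_combination hs)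
  refine ⟨?_, this.2.1 0, this.2.1 1⟩
  rcases huv with h | h
  · exact (mul_eq_zero.1 this.1).resolve_right h
  · exact (mul_eq_zero.1 this.2.2).resolve_right h

theorem lt_uv {u v : ℂ} (hu : IsAlgebraic ℚ u) (hv : IsAlgebraic ℚ v) :
    u + v * (Real.pi : ℂ) ∈ Lt := Lt.add_mem (Lt_alg hu) (Lt_mul hv pi_mem)

/-- the key: `b (u + v π)` in `Lt` excludes two independent algebraic bases -/
theorem two_excl (b : ℝ) (hb : Transcendental ℚ b) (u v : ℂ) (hu : IsAlgebraic ℚ u)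
    (hv : IsAlgebraic ℚ v) (huv : u ≠ 0 ∨ v ≠ 0) (hbuv : (b : ℂ) * (u + v * (Real.pi : ℂ)) ∈ Lt)
    (α : Fin 2 → ℝ) (hα : ∀ i, 0 < α i) (ha : ∀ i, IsAlgebraic ℚ (α i)) (hi : MInd α) :
    ∃ i, ¬ InP (α i ^ b) := by
  by_contra hcon
  push Not at hcon
  exact core b hb _ _ _ (ind3_two α hα ha hi u v hu hv huv) (lt_uv hu hv)
    (log_mem' (hα 0) (ha 0)) (log_mem' (hα 1) (ha 1)) hbuv ((inP_rpow (hα 0)).1 (hcon 0))
    ((inP_rpow (hα 1)).1 (hcon 1))

theorem three_excl (b : ℝ) (hb : Transcendental ℚ b)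
    (α : Fin 3 → ℝ) (hα : ∀ i, 0 < α i) (ha : ∀ i, IsAlgebraic ℚ (α i)) (hi : MInd α) :
    ∃ i, ¬ InP (α i ^ b) := by
  by_contra hcon
  push Not at hcon
  exact core b hb _ _ _ (ind3_three α hα ha hi)
    (log_mem' (hα 0) (ha 0)) (log_mem' (hα 1) (ha 1)) (log_mem' (hα 2) (ha 2))
    ((inP_rpow (hα 0)).1 (hcon 0)) ((inP_rpow (hα 1)).1 (hcon 1)) ((inP_rpow (hα 2)).1 (hcon 2))

theorem log_tr {α : ℝ} (hα : 0 < α) (ha : IsAlgebraic ℚ α) (h1 : α ≠ 1) :
    Transcendental ℚ (Real.log α) := by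
  intro h
  have h2 := LW.transcendental_cexp ((Real.log α : ℝ) : ℂ) (alg_ofReal h) (by
    rw [Complex.ofReal_ne_zero]
    exact log_ne hα h1)
  apply h2
  rw [← Complex.ofReal_exp, Real.exp_log hα]
  exact alg_ofReal ha

/-- the numbers `e^z`, `e^(z^2)`, `α^z`, `α^(z^2)` -/
theorem squares (z : ℝ) (hz : Transcendental ℚ z) {α : ℝ} (hα : 0 < α) (ha : IsAlgebraic ℚ α)
    (h1 : α ≠ 1) (k1 : InP (Real.exp z)) (k2 : InP (Real.exp (z ^ 2))) (k3 : InP (α ^ z))
    (k4 : InP (α ^ (z ^ 2))) : False := by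
  have hc := powers (z : ℂ) (trC hz) 0 1 2 (by norm_num) (by norm_num) (by norm_num)
  rw [pow_zero, pow_one] at hc
  have e1 : (z : ℂ) ∈ Lt := by
    have := k1.2
    rwa [Real.log_exp] at this
  have e2 : (z : ℂ) ^ 2 ∈ Lt := by
    have := k2.2
    rw [Real.log_exp] at this
    push_cast at this
    exact this
  have e3 := (inP_rpow hα).1 k3
  have e4 := (inP_rpow hα).1 k4
  refine core (Real.log α) (log_tr hα ha h1) _ _ _ hc Lt_one e1 e2 ?_ ?_ ?_
  · rw [mul_one]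
    exact log_mem' hα ha
  · rw [mul_comm]
    exact e3
  · rw [mul_comm]
    push_cast at e4
    exact e4

/-! ### integers -/

/-- the set is empty or consists of the powers of one integer -/
def PowersOfOne (S : Set ℕ) : Prop := S = ∅ ∨ ∃ n₁ : ℕ, 2 ≤ n₁ ∧ S = {n | ∃ k : ℕ, 1 ≤ k ∧ n = n₁ ^ k}

theorem dvd_of_dep {m n : ℕ} (hm : 2 ≤ m) (hmn : m ≤ n) (h : ¬ MInd ![(m : ℝ), (n : ℝ)]) :
    m ∣ n := by
  unfold MInd at h
  push Not at h
  obtain ⟨k, hk, hk0⟩ := h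
  rw [Fin.prod_univ_two] at hk
  simp only [Matrix.cons_val_zero, Matrix.cons_val_one] at hk
  have hm0 : (0 : ℝ) < m := by positivity
  have hn0 : (0 : ℝ) < n := by
    have : 0 < n := by omega
    exact_mod_cast this
  have hlm : 0 < Real.log m := Real.log_pos (by exact_mod_cast (by omega : 1 < m))
  have hln : 0 < Real.log n := Real.log_pos (by exact_mod_cast (by omega : 1 < n))
  have h1 : (k 0 : ℝ) * Real.log m + (k 1 : ℝ) * Real.log n = 0 := by
    have := congrArg Real.log hk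
    rw [Real.log_mul (zpow_pos hm0 _).ne' (zpow_pos hn0 _).ne', Real.log_zpow, Real.log_zpow,
      Real.log_one] at this
    exact this
  have h2 : ((k 0).natAbs : ℝ) * Real.log m = ((k 1).natAbs : ℝ) * Real.log n := by
    have h3 : |(k 0 : ℝ) * Real.log m| = |(k 1 : ℝ) * Real.log n| := by
      rw [show (k 0 : ℝ) * Real.log m = -((k 1 : ℝ) * Real.log n) by linarith, abs_neg]
    rw [abs_mul, abs_mul, abs_of_pos hlm, abs_of_pos hln] at h3
    have e : ∀ j : ℤ, ((j.natAbs : ℕ) : ℝ) = |(j : ℝ)| := by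
      intro j
      rw [Nat.cast_natAbs]
      push_cast
      rfl
    rw [e, e]
    exact h3
  set a := (k 0).natAbs with hadef
  set b := (k 1).natAbs with hbdef
  have hb : b ≠ 0 := by
    intro hb0
    rw [hb0, Nat.cast_zero, zero_mul] at h2
    have ha0 : (a : ℝ) = 0 := (mul_eq_zero.1 h2).resolve_right hlm.ne'
    have ha0' : a = 0 := by exact_mod_cast ha0
    apply hk0
    ext i
    fin_cases i
    · exact Int.natAbs_eq_zero.1 ha0'
    · exact Int.natAbs_eq_zero.1 hb0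
  have h4 : m ^ a = n ^ b := by
    have h5 : Real.log ((m : ℝ) ^ a) = Real.log ((n : ℝ) ^ b) := by
      rw [Real.log_pow, Real.log_pow]
      exact h2
    have h6 := Real.log_injOn_pos (Set.mem_Ioi.2 (pow_pos hm0 a)) (Set.mem_Ioi.2 (pow_pos hn0 b)) h5
    exact_mod_cast h6
  have hab : b ≤ a := by
    have h7 : Real.log m ≤ Real.log n := Real.log_le_log hm0 (by exact_mod_cast hmn)
    have h8 : (b : ℝ) * Real.log m ≤ a * Real.log m := by
      rw [h2]
      exact mul_le_mul_of_nonneg_left h7 (Nat.cast_nonneg b)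
    exact_mod_cast le_of_mul_le_mul_right h8 hlm
  have h9 : m ^ b ∣ n ^ b := by
    rw [← h4]
    exact pow_dvd_pow m hab
  exact (Nat.pow_dvd_pow_iff hb).1 h9

theorem powersOfOne_of (S : Set ℕ) (h2 : ∀ n ∈ S, 2 ≤ n)
    (hdep : ∀ m ∈ S, ∀ n ∈ S, ¬ MInd ![(m : ℝ), (n : ℝ)])
    (hmul : ∀ m ∈ S, ∀ n ∈ S, m * n ∈ S)
    (hdiv : ∀ m n : ℕ, m ∈ S → m * n ∈ S → 2 ≤ n → n ∈ S) : PowersOfOne S := by
  classical
  rcases S.eq_empty_or_nonempty with h | hne
  · exact Or.inl h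
  · right
    have hex : ∃ n, n ∈ S := hne
    set m := Nat.find hex with hmd
    have hm : m ∈ S := Nat.find_spec hex
    have hmin : ∀ n ∈ S, m ≤ n := fun n hn => Nat.find_min' hex hn
    refine ⟨m, h2 m hm, ?_⟩
    ext n
    constructor
    · intro hn
      change ∃ k : ℕ, 1 ≤ k ∧ n = m ^ k
      induction n using Nat.strong_induction_on with
      | _ n ih =>
        obtain ⟨q, rfl⟩ := dvd_of_dep (h2 m hm) (hmin n hn) (hdep m hm n hn)
        have h2m := h2 m hm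
        have h2n := h2 _ hn
        rcases Nat.lt_or_ge q 2 with hq | hq
        · interval_cases q
          · omega
          · exact ⟨1, le_rfl, by ring⟩
        · obtain ⟨k, hk, hqk⟩ := ih q (by nlinarith) (hdiv m q hm hn hq)
          exact ⟨k + 1, by omega, by rw [hqk]; ring⟩
    · rintro ⟨k, hk, rfl⟩
      obtain ⟨j, rfl⟩ := Nat.exists_eq_add_of_le hk
      clear hk
      induction j with
      | zero => simpa using hm
      | succ j ih =>
        have := hmul _ hm _ ih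
        rwa [show m * m ^ (1 + j) = m ^ (1 + (j + 1)) by ring] at this

/-- the sets of the problem for a property which is preserved by products and quotients -/
theorem powersOfOne_prop (b : ℝ) (Q : ℝ → Prop) (hQ : ∀ t, 0 < t → Q t → InP t)
    (hmul : ∀ s t, 0 < s → 0 < t → Q s → Q t → Q (s * t))
    (hdiv : ∀ s t, 0 < s → 0 < t → Q s → Q t → Q (s / t))
    (hb : ∀ α : Fin 2 → ℝ, (∀ i, 0 < α i) → (∀ i, IsAlgebraic ℚ (α i)) → MInd α →
      ∃ i, ¬ InP (α i ^ b)) :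
    PowersOfOne {n : ℕ | 2 ≤ n ∧ Q ((n : ℝ) ^ b)} := by
  have hpos : ∀ n : ℕ, 2 ≤ n → (0 : ℝ) < n := fun n hn => by positivity
  refine powersOfOne_of _ (fun n hn => hn.1) ?_ ?_ ?_
  · intro m hm n hn hi
    obtain ⟨i, hi⟩ := hb ![(m : ℝ), (n : ℝ)] (by
      intro i
      fin_cases i
      · exact hpos m hm.1
      · exact hpos n hn.1) (by
      intro i
      fin_cases i
      · exact isAlgebraic_nat m
      · exact isAlgebraic_nat n) hi
    apply hi
    fin_cases i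
    · exact hQ _ (Real.rpow_pos_of_pos (hpos m hm.1) b) hm.2
    · exact hQ _ (Real.rpow_pos_of_pos (hpos n hn.1) b) hn.2
  · intro m hm n hn
    refine ⟨?_, ?_⟩
    · have := hm.1
      have := hn.1
      nlinarith
    · push_cast
      rw [Real.mul_rpow (Nat.cast_nonneg m) (Nat.cast_nonneg n)]
      exact hmul _ _ (Real.rpow_pos_of_pos (hpos m hm.1) b) (Real.rpow_pos_of_pos (hpos n hn.1) b)
        hm.2 hn.2
  · intro m n hm hmn hn
    refine ⟨hn, ?_⟩
    have h1 := hmn.2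
    have h2 := hdiv _ _ (Real.rpow_pos_of_pos (hpos (m * n) hmn.1) b)
      (Real.rpow_pos_of_pos (hpos m hm.1) b) h1 hm.2
    push_cast at h2
    rw [Real.mul_rpow (Nat.cast_nonneg m) (Nat.cast_nonneg n),
      mul_div_cancel_left₀ _ (Real.rpow_pos_of_pos (hpos m hm.1) b).ne'] at h2
    exact h2

theorem three_sets (b : ℝ)
    (hb : ∀ α : Fin 2 → ℝ, (∀ i, 0 < α i) → (∀ i, IsAlgebraic ℚ (α i)) → MInd α →
      ∃ i, ¬ InP (α i ^ b)) :
    PowersOfOne {n : ℕ | 2 ≤ n ∧ ∃ q : ℚ, (n : ℝ) ^ b = q} ∧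
    PowersOfOne {n : ℕ | 2 ≤ n ∧ IsAlgebraic ℚ ((n : ℝ) ^ b)} ∧
    PowersOfOne {n : ℕ | 2 ≤ n ∧ InP ((n : ℝ) ^ b)} := by
  refine ⟨powersOfOne_prop b (fun t => ∃ q : ℚ, t = q) ?_ ?_ ?_ hb,
    powersOfOne_prop b (fun t => IsAlgebraic ℚ t) (fun t ht h => inP_alg ht h)
      (fun s t _ _ h1 h2 => h1.mul h2) (fun s t _ _ h1 h2 => ?_) hb,
    powersOfOne_prop b InP (fun t _ h => h) (fun s t _ _ h1 h2 => inP_mul h1 h2)
      (fun s t _ _ h1 h2 => inP_div h1 h2) hb⟩
  · rintro t ht ⟨q, rfl⟩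
    refine inP_alg ht ?_
    have := isAlgebraic_algebraMap (R := ℚ) (A := ℝ) q
    exact this
  · rintro s t _ _ ⟨q, rfl⟩ ⟨r, rfl⟩
    exact ⟨q * r, by push_cast; rfl⟩
  · rintro s t _ _ ⟨q, rfl⟩ ⟨r, rfl⟩
    exact ⟨q / r, by push_cast; rfl⟩
  · rw [div_eq_mul_inv]
    exact h1.mul h2.inv

theorem card_powers (S : Set ℕ) (h : PowersOfOne S) (N : ℕ) (P : ℕ → Prop) [DecidablePred P]
    (hP : ∀ n, 2 ≤ n → P n → n ∈ S) :
    ((Finset.Icc 2 N).filter P).card ≤ Nat.log 2 N := by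
  rcases h with rfl | ⟨n₁, hn₁, rfl⟩
  · rw [Finset.card_eq_zero.2]
    · exact Nat.zero_le _
    · refine Finset.filter_eq_empty_iff.2 fun n hn h => ?_
      exact hP n (Finset.mem_Icc.1 hn).1 h
  · have hsub : (Finset.Icc 2 N).filter P ⊆
        (Finset.Icc 1 (Nat.log 2 N)).image (fun k => n₁ ^ k) := by
      intro n hn
      rw [Finset.mem_filter, Finset.mem_Icc] at hn
      obtain ⟨k, hk, rfl⟩ := hP n hn.1.1 hn.2
      refine Finset.mem_image.2 ⟨k, Finset.mem_Icc.2 ⟨hk, ?_⟩, rfl⟩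
      have h3 : 2 ^ k ≤ N := (Nat.pow_le_pow_left hn₁ k).trans hn.1.2
      exact Nat.le_log_of_pow_le (by norm_num) h3
    refine (Finset.card_le_card hsub).trans (Finset.card_image_le.trans ?_)
    rw [Nat.card_Icc]
    omega

end Pool.Agent.V11252.NP
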