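import Pool.Agent.V11252.NP.Dep2
import Pool.Agent.Y920.NineBW

/-!
# Consequences of relations between `1`, `e`, `π`
-/

set_option autoImplicit false

namespace Pool.Agent.V11252.NP

open Pool.Agent.H301R2.SSE Pool.Agent.H340R2 Pool.Agent.H462R2.PiE Pool.Agent.H137R5.Tow

section BW

open Pool.Agent.W243.TD Pool.Agent.TH577.RF

/-- `τ = π i` -/
noncomputable def tau : ℂ := (Real.pi : ℂ) * Complex.I

theorem tau_lin {p q : ℚ} (h : (p : ℂ) + (q : ℂ) * tau = 0) : p = 0 ∧ q = 0 := by
  unfold tau at h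
  have hre := congrArg Complex.re h
  have him := congrArg Complex.im h
  simp only [Complex.add_re, mul_one, Complex.add_im, Complex.mul_re, Complex.mul_im,
    Complex.ratCast_re, Complex.ratCast_im, Complex.ofReal_re, Complex.ofReal_im, Complex.I_re,
    Complex.I_im, Complex.zero_re, Complex.zero_im, mul_zero, zero_mul, sub_zero, add_zero,
    zero_add, sub_self] at hre him
  refine ⟨by exact_mod_cast hre, ?_⟩
  have := (mul_eq_zero.mp him).resolve_right Real.pi_ne_zero
  exact_mod_cast this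

theorem one_add_ne (v : ℚ) : (1 : ℂ) + v * tau ≠ 0 := by
  intro h
  have := (tau_lin (p := 1) (q := v) (by push_cast; exact h)).1
  exact one_ne_zero this

theorem tau_ne : tau ≠ 0 := by
  intro h
  have := (tau_lin (p := 0) (q := 1) (by rw [h]; simp)).2
  exact one_ne_zero this

theorem exp_rat_tau (q : ℚ) : IsAlgebraic ℚ (Complex.exp (q * tau)) := by
  refine IsAlgebraic.of_pow (n := q.den) q.pos ?_
  rw [← Complex.exp_nat_mul]
  have h1 : (q.den : ℂ) * (q * tau) = (q.num : ℂ) * ((Real.pi : ℂ) * Complex.I) := by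
    have h2 : ((q * q.den : ℚ) : ℂ) = ((q.num : ℚ) : ℂ) := by rw [Rat.mul_den_eq_num]
    push_cast at h2
    unfold tau
    rw [← h2]
    ring
  rw [h1, Complex.exp_int_mul, Complex.exp_pi_mul_I]
  exact alg_zpow isAlgebraic_one.neg _

theorem moebius (s t v : ℚ) (hM : t ≠ s * v)
    (h : IsAlgebraic ℚ (Complex.exp (tau * ((s + t * tau) / (1 + v * tau)))))
    (hal : Al ((Real.pi : ℝ) : ℂ) ((Real.exp 1 : ℝ) : ℂ)) : False := by
  have hpi : Al ((Real.pi : ℝ) : ℂ) ((Real.pi : ℝ) : ℂ) := al_self _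
  have hI : Al ((Real.pi : ℝ) : ℂ) Complex.I := al_of_alg Pool.Agent.H301R2.Nine.algI
  have htau : Al ((Real.pi : ℝ) : ℂ) tau := hpi.mul hI
  have h1 : Al ((Real.pi : ℝ) : ℂ) 1 := isAlgebraic_one
  have hq : ∀ q : ℚ, Al ((Real.pi : ℝ) : ℂ) (q : ℂ) := fun q => al_of_alg (by
    have := isAlgebraic_algebraMap (R := ℚ) (A := ℂ) q
    exact this)
  have hlin : ∀ p q : ℚ, Al ((Real.pi : ℝ) : ℂ) ((p : ℂ) + q * tau) := fun p q =>
    (hq p).add ((hq q).mul htau)
  have h1v : Al ((Real.pi : ℝ) : ℂ) ((1 : ℂ) + v * tau) := h1.add ((hq v).mul htau)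
  have hne := one_add_ne v
  have hne' : (1 : ℂ) + tau * v ≠ 0 := by rw [mul_comm]; exact hne
  have ht0 := tau_ne
  set w : ℂ := tau * ((s + t * tau) / (1 + v * tau)) with hw
  set r : ℂ := (1 + v * tau) / tau with hr
  have hwA : Al ((Real.pi : ℝ) : ℂ) w := by
    rw [hw, div_eq_mul_inv]
    exact htau.mul ((hlin s t).mul h1v.inv)
  have hrA : Al ((Real.pi : ℝ) : ℂ) r := by
    rw [hr, div_eq_mul_inv]
    exact h1v.mul htau.inv
  -- exponentials of rational numbers
  have hexp : ∀ q : ℚ, Al ((Real.pi : ℝ) : ℂ) (Complex.exp (q : ℂ)) := by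
    intro q
    refine IsAlgebraic.of_pow (n := q.den) q.pos ?_
    rw [← Complex.exp_nat_mul]
    have h2 : (q.den : ℂ) * (q : ℂ) = (q.num : ℂ) * 1 := by
      have h2 : ((q * q.den : ℚ) : ℂ) = ((q.num : ℚ) : ℂ) := by rw [Rat.mul_den_eq_num]
      push_cast at h2
      rw [mul_one, ← h2]
      ring
    rw [h2, Complex.exp_int_mul]
    have h3 : Complex.exp 1 = ((Real.exp 1 : ℝ) : ℂ) := by
      rw [Complex.ofReal_exp, Complex.ofReal_one]
    rw [h3]
    exact alg_zpow hal _
  have hexp2 : ∀ p q : ℚ, Al ((Real.pi : ℝ) : ℂ) (Complex.exp ((p : ℂ) + q * tau)) := by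
    intro p q
    rw [Complex.exp_add]
    exact (hexp p).mul (al_of_alg (exp_rat_tau q))
  refine Pool.Agent.W252.bw Pool.Agent.Y920.NineBW.pi_tr ![tau, w] ![(1 : ℂ), r] ?_ ?_ ?_ ?_ ?_ ?_
  · rw [LinearIndependent.pair_iff]
    intro p q hpq
    rw [Rat.smul_def, Rat.smul_def] at hpq
    have h2 : ((p + q * s : ℚ) : ℂ) + ((p * v + q * t : ℚ) : ℂ) * tau = 0 := by
      apply mul_left_cancel₀ ht0
      rw [mul_zero]
      rw [hw] at hpq
      field_simp at hpq
      push_cast
      linear_combination hpq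
    obtain ⟨h3, h4⟩ := tau_lin h2
    have h5 : q * (t - s * v) = 0 := by linear_combination h4 - v * h3
    have h6 : q = 0 := (mul_eq_zero.1 h5).resolve_right (sub_ne_zero.2 hM)
    rw [h6, zero_mul, add_zero] at h3
    exact ⟨h3, h6⟩
  · rw [LinearIndependent.pair_iff]
    intro p q hpq
    rw [Rat.smul_def, Rat.smul_def, mul_one] at hpq
    have h2 : ((q : ℚ) : ℂ) + ((p + q * v : ℚ) : ℂ) * tau = 0 := by
      rw [hr] at hpq
      field_simp at hpq
      push_cast
      linear_combination hpq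
    obtain ⟨h3, h4⟩ := tau_lin h2
    rw [h3, zero_mul, add_zero] at h4
    exact ⟨h4, h3⟩
  · intro i
    fin_cases i
    · exact htau
    · exact hwA
  · intro i
    fin_cases i
    · exact h1
    · exact hrA
  · intro i
    fin_cases i
    · show IsAlgebraic ℚ (Complex.exp (tau * 1))
      rw [mul_one]
      unfold tau
      rw [Complex.exp_pi_mul_I]
      exact isAlgebraic_one.neg
    · show IsAlgebraic ℚ (Complex.exp (w * 1))
      rw [mul_one]
      exact h
  · intro i
    fin_cases i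
    · show Al ((Real.pi : ℝ) : ℂ) (Complex.exp (tau * r))
      have : tau * r = ((1 : ℚ) : ℂ) + v * tau := by
        rw [hr]
        field_simp
        push_cast
        ring
      rw [this]
      exact hexp2 1 v
    · show Al ((Real.pi : ℝ) : ℂ) (Complex.exp (w * r))
      have : w * r = (s : ℂ) + t * tau := by
        rw [hr, hw]
        field_simp
      rw [this]
      exact hexp2 s t

theorem moebius_indep (s t v : ℚ) (hM : t ≠ s * v)
    (h : IsAlgebraic ℚ (Complex.exp (tau * ((s + t * tau) / (1 + v * tau))))) :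
    AlgebraicIndependent ℚ ![Real.pi, Real.exp 1] := by
  by_contra hcon
  exact moebius s t v hM h (real_al Pool.Agent.Y920.NineBW.pi_tr hcon)

end BW

end Pool.Agent.V11252.NP
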