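import Pool.Agent.V11252.NP.Five
import Pool.Agent.H301R2.SSE.Nine
import Pool.Agent.W472.AC.Joint

/-!
# Consequences of a linear relation between `1`, `e`, `π`
-/

set_option autoImplicit false

namespace Pool.Agent.V11252.NP

open Pool.Agent.H301R2.SSE Pool.Agent.H340R2 Pool.Agent.H462R2.PiE Pool.Agent.H137R5.Tow

/-- `e = a + b π` with real algebraic `a`, `b` -/
structure Rel (a b : ℝ) : Prop where
  ha : IsAlgebraic ℚ a
  hb : IsAlgebraic ℚ b
  h : Real.exp 1 = a + b * Real.pi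

namespace Rel

variable {a b : ℝ} (R : Rel a b)
include R

theorem b_ne : b ≠ 0 := by
  intro h0
  apply LW.transcendental_exp_one
  have := R.h
  rw [h0, zero_mul, add_zero] at this
  rw [this]
  exact R.ha

theorem hc : ((Real.exp 1 : ℝ) : ℂ) = (a : ℂ) + (b : ℂ) * (Real.pi : ℂ) := by
  rw [R.h]
  push_cast
  ring

theorem e_mem : ((Real.exp 1 : ℝ) : ℂ) ∈ Lt := by
  rw [R.hc]
  exact lt_uv (alg_ofReal R.ha) (alg_ofReal R.hb)

theorem e_mem' : ((Real.exp 1 : ℝ) : ℂ) * (1 + 0 * (Real.pi : ℂ)) ∈ Lt := by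
  rw [zero_mul, add_zero, mul_one]
  exact R.e_mem

theorem bc_ne : (b : ℂ) ≠ 0 := by exact_mod_cast R.b_ne

/-- multiplication by `e` and by `π` -/
theorem mul_iff {y : ℂ} (hy : y ∈ Lt) :
    ((Real.exp 1 : ℝ) : ℂ) * y ∈ Lt ↔ (Real.pi : ℂ) * y ∈ Lt := by
  have h1 : (a : ℂ) * y ∈ Lt := Lt_mul (alg_ofReal R.ha) hy
  constructor
  · intro h
    have h2 : (Real.pi : ℂ) * y = (b : ℂ)⁻¹ * (((Real.exp 1 : ℝ) : ℂ) * y - (a : ℂ) * y) := by
      rw [R.hc]
      have := R.bc_ne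
      field_simp
      ring
    rw [h2]
    exact Lt_mul (alg_ofReal R.hb).inv (Lt.sub_mem h h1)
  · intro h
    have h2 : ((Real.exp 1 : ℝ) : ℂ) * y = (a : ℂ) * y + (b : ℂ) * ((Real.pi : ℂ) * y) := by
      rw [R.hc]
      ring
    rw [h2]
    exact Lt.add_mem h1 (Lt_mul (alg_ofReal R.hb) h)

theorem exp_tr (u v : ℝ) (hu : IsAlgebraic ℚ u) (hv : IsAlgebraic ℚ v) (huv : u ≠ 0 ∨ v ≠ 0) :
    Transcendental ℚ (Real.exp (u * Real.exp 1 + v)) := by
  intro hcon
  have hne : u * Real.exp 1 + v ≠ 0 := by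
    intro h0
    by_cases hu0 : u = 0
    · rw [hu0, zero_mul, zero_add] at h0
      rcases huv with h | h
      · exact h hu0
      · exact h h0
    · apply LW.transcendental_exp_one
      have : Real.exp 1 = -v / u := by
        field_simp
        linear_combination h0
      rw [this]
      exact hv.neg.mul hu.inv
  have := Pool.Agent.H301R2.Nine.pi_log hne hcon (a := ((u * a + v : ℝ) : ℂ))
    (b := ((u * b : ℝ) : ℂ)) (c := -1) (alg_ofReal ((hu.mul R.ha).add hv))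
    (alg_ofReal (hu.mul R.hb)) isAlgebraic_one.neg (by
      rw [R.h]
      push_cast
      ring)
  exact absurd this.2.2 (by norm_num)

theorem pow_iff {t : ℝ} (ht : InP t) : InP (t ^ Real.exp 1) ↔ InP (t ^ Real.pi) := by
  rw [inP_rpow ht.1, inP_rpow ht.1]
  exact R.mul_iff ht.2

theorem mem_exp (x : ℝ) : InP (Real.exp x) ↔ ((x : ℝ) : ℂ) ∈ Lt := by
  unfold InP
  rw [Real.log_exp]
  exact ⟨fun h => h.2, fun h => ⟨Real.exp_pos x, h⟩⟩

theorem sq_iff : (InP (Real.exp (Real.exp 1 ^ 2)) ↔ InP (Real.exp (Real.pi ^ 2))) ∧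
    (InP (Real.exp (Real.exp 1 ^ 2)) ↔ InP (Real.exp (Real.pi * Real.exp 1))) := by
  rw [R.mem_exp, R.mem_exp, R.mem_exp]
  have h1 := R.mul_iff R.e_mem
  have h2 := R.mul_iff pi_mem
  have e1 : ((Real.exp 1 ^ 2 : ℝ) : ℂ) = ((Real.exp 1 : ℝ) : ℂ) * ((Real.exp 1 : ℝ) : ℂ) := by
    push_cast; ring
  have e2 : ((Real.pi ^ 2 : ℝ) : ℂ) = (Real.pi : ℂ) * (Real.pi : ℂ) := by push_cast; ring
  have e3 : ((Real.pi * Real.exp 1 : ℝ) : ℂ) = (Real.pi : ℂ) * ((Real.exp 1 : ℝ) : ℂ) := by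
    push_cast; ring
  rw [e1, e2, e3]
  refine ⟨?_, h1⟩
  rw [h1, ← h2, mul_comm]

theorem sq_excl {α : ℝ} (hα : 0 < α) (ha : IsAlgebraic ℚ α) (h1 : α ≠ 1) :
    ¬ InP (α ^ Real.exp 1) ∨ ¬ InP (Real.exp (Real.exp 1 ^ 2)) := by
  by_contra hcon
  push Not at hcon
  obtain ⟨c1, c2⟩ := hcon
  have hl0 : Real.log α ≠ 0 := log_ne hα h1
  rw [R.mem_exp] at c2
  have e1 : ((Real.exp 1 ^ 2 : ℝ) : ℂ) = ((Real.exp 1 : ℝ) : ℂ) * ((Real.exp 1 : ℝ) : ℂ) := by
    push_cast; ring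
  rw [e1] at c2
  have c3 := (R.mul_iff R.e_mem).1 c2
  rw [mul_comm] at c3
  refine core (Real.exp 1) LW.transcendental_exp_one (1 : ℂ) (Real.pi : ℂ)
    ((Real.log α : ℝ) : ℂ) ?_ Lt_one pi_mem (log_mem' hα ha) ?_ c3 ((inP_rpow hα).1 c1)
  · intro p q d ha' hc hd hs
    have := bkn (fun _ : Fin 1 => Real.log α) (fun _ => by rw [Real.exp_log hα]; exact ha) (by
      intro p hp i
      fin_cases i
      rw [Fin.sum_univ_one] at hp
      have : (p 0 : ℝ) = 0 := (mul_eq_zero.1 hp).resolve_right hl0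
      exact_mod_cast this) p q (fun _ => d) ha' hc (fun _ => hd) (by
      rw [Fin.sum_univ_one]
      linear_combination hs)
    exact ⟨this.1, this.2.2, this.2.1 0⟩
  · rw [mul_one]
    exact R.e_mem

theorem cube_excl : ¬ InP (Real.exp (Real.exp 1 ^ 2)) ∨ ¬ InP (Real.exp (Real.exp 1 ^ 3)) := by
  by_contra hcon
  push Not at hcon
  obtain ⟨c2, c3⟩ := hcon
  have he := LW.transcendental_exp_one
  have hc := powers ((Real.exp 1 : ℝ) : ℂ) (trC he) 0 1 2 (by norm_num) (by norm_num)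
    (by norm_num)
  rw [pow_zero, pow_one] at hc
  have d2 := (R.mem_exp _).1 c2
  have d3 := (R.mem_exp _).1 c3
  refine core (Real.exp 1) he _ _ _ hc Lt_one R.e_mem ?_ ?_ ?_ ?_
  · push_cast at d2 ⊢
    exact d2
  · rw [mul_one]
    exact R.e_mem
  · rw [← pow_two]
    push_cast at d2 ⊢
    exact d2
  · rw [show ((Real.exp 1 : ℝ) : ℂ) * ((Real.exp 1 : ℝ) : ℂ) ^ 2 =
      ((Real.exp 1 ^ 3 : ℝ) : ℂ) by push_cast; ring]
    exact d3

theorem five' (x : ℝ) (hx : x ≠ 0) (h1 : IsAlgebraic ℚ (Real.exp x))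
    (h2 : IsAlgebraic ℚ (Real.exp (Real.exp 1 * x))) : ¬ InP (Real.exp (Real.exp 1 ^ 2 * x)) := by
  intro h3
  exact five (Real.exp 1) LW.transcendental_exp_one 1 0 isAlgebraic_one isAlgebraic_zero
    (Or.inl one_ne_zero) R.e_mem' x hx h1 h2 ((R.mem_exp _).1 h3)

theorem two (α : Fin 2 → ℝ) (hα : ∀ i, 0 < α i) (ha : ∀ i, IsAlgebraic ℚ (α i)) (hi : MInd α) :
    ∃ i, ¬ InP (α i ^ Real.exp 1) :=
  two_excl (Real.exp 1) LW.transcendental_exp_one 1 0 isAlgebraic_one isAlgebraic_zero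
    (Or.inl one_ne_zero) R.e_mem' α hα ha hi

end Rel

/-- an integral power of an algebraic element -/
theorem alg_zpow {F K : Type} [Field F] [Field K] [Algebra F K] {x : K} (h : IsAlgebraic F x)
    (n : ℤ) : IsAlgebraic F (x ^ n) := by
  obtain ⟨m, rfl | rfl⟩ := n.eq_nat_or_neg
  · rw [zpow_natCast]
    exact h.pow m
  · rw [zpow_neg, zpow_natCast]
    exact (h.pow m).inv

/-- a rational power of an algebraic number -/
theorem alg_rpow {x : ℝ} (hx : 0 < x) (h : IsAlgebraic ℚ x) (q : ℚ) :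
    IsAlgebraic ℚ (x ^ (q : ℝ)) := by
  refine IsAlgebraic.of_pow (n := q.den) q.pos ?_
  have h6 : (x ^ ((q : ℚ) : ℝ)) ^ q.den = x ^ q.num := by
    rw [← Real.rpow_natCast, ← Real.rpow_mul hx.le, ← Real.rpow_intCast]
    congr 1
    have : ((q * q.den : ℚ) : ℝ) = ((q.num : ℚ) : ℝ) := by rw [Rat.mul_den_eq_num]
    push_cast at this
    exact_mod_cast this
  rw [h6]
  exact alg_zpow h _

theorem alg_pow_iff {r s : ℚ} (h : Real.exp 1 = r + s * Real.pi) (hs : s ≠ 0) {α : ℝ}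
    (hα : 0 < α) (ha : IsAlgebraic ℚ α) :
    IsAlgebraic ℚ (α ^ Real.exp 1) ↔ IsAlgebraic ℚ (α ^ Real.pi) := by
  have hsR : (s : ℝ) ≠ 0 := by exact_mod_cast hs
  constructor
  · intro h1
    have e1 : α ^ Real.pi = (α ^ Real.exp 1) ^ ((s⁻¹ : ℚ) : ℝ) * α ^ ((-r * s⁻¹ : ℚ) : ℝ) := by
      rw [← Real.rpow_mul hα.le, ← Real.rpow_add hα]
      congr 1
      rw [h]
      push_cast
      field_simp
      ring
    rw [e1]
    exact (alg_rpow (Real.rpow_pos_of_pos hα _) h1 _).mul (alg_rpow hα ha _)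
  · intro h1
    have e1 : α ^ Real.exp 1 = (α ^ Real.pi) ^ (s : ℝ) * α ^ (r : ℝ) := by
      rw [← Real.rpow_mul hα.le, ← Real.rpow_add hα]
      congr 1
      rw [h]
      ring
    rw [e1]
    exact (alg_rpow (Real.rpow_pos_of_pos hα _) h1 _).mul (alg_rpow hα ha _)

/-- the irrationality exponent of `π` is two -/
theorem pi_measure {r s : ℚ} (h : Real.exp 1 = r + s * Real.pi) (hs : s ≠ 0) (η : ℝ) (hη : 0 < η) :
    ∃ c : ℝ, 0 < c ∧ ∀ (p : ℤ) (q : ℕ), 1 ≤ q →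
      c * (q : ℝ) ^ (-(2 + η)) ≤ |Real.pi - (p : ℝ) / q| := by
  obtain ⟨c₀, hc₀, hM⟩ := Pool.Agent.W472.AC.e_measL (m := 1) (fun _ => 1)
    (fun i j _ => Subsingleton.elim i j) (fun _ => le_rfl) η hη
  -- common denominator
  set d : ℕ := r.den * s.den with hd
  have hd0 : 0 < d := Nat.mul_pos r.pos s.pos
  set A : ℤ := r.num * s.den with hA
  set B : ℤ := s.num * r.den with hB
  have hdR : (d : ℝ) ≠ 0 := by exact_mod_cast hd0.ne'
  have hrA : (r : ℝ) * d = A := by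
    have : ((r * r.den : ℚ) : ℝ) = ((r.num : ℚ) : ℝ) := by rw [Rat.mul_den_eq_num]
    push_cast at this
    rw [hd, hA]
    push_cast
    linear_combination (s.den : ℝ) * this
  have hsB : (s : ℝ) * d = B := by
    have : ((s * s.den : ℚ) : ℝ) = ((s.num : ℚ) : ℝ) := by rw [Rat.mul_den_eq_num]
    push_cast at this
    rw [hd, hB]
    push_cast
    linear_combination (r.den : ℝ) * this
  have hB0 : B ≠ 0 := by
    rw [hB]
    exact mul_ne_zero (Rat.num_ne_zero.2 hs) (by exact_mod_cast r.pos.ne')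
  have hBR : (B : ℝ) ≠ 0 := by exact_mod_cast hB0
  have hmain : (d : ℝ) * Real.exp 1 = A + B * Real.pi := by
    rw [h, mul_add, ← hrA, ← hsB]
    ring
  -- for `|π - p/q| ≤ 1`
  set K : ℝ := |(A : ℝ)| + |(B : ℝ)| * 5 + d with hK
  have hK1 : 1 ≤ K := by
    have h1 : (1 : ℝ) ≤ d := by exact_mod_cast hd0
    have h2 := abs_nonneg (A : ℝ)
    have h3 := abs_nonneg (B : ℝ)
    rw [hK]
    nlinarith
  set c₁ : ℝ := c₀ / (K ^ (1 + η) * |(B : ℝ)|) with hc1
  have hc1p : 0 < c₁ := by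
    rw [hc1]
    have : 0 < |(B : ℝ)| := abs_pos.2 hBR
    have h2 : 0 < K ^ (1 + η) := Real.rpow_pos_of_pos (by linarith) _
    positivity
  refine ⟨min 1 c₁, lt_min one_pos hc1p, ?_⟩
  intro p q hq
  have hqR : (1 : ℝ) ≤ q := by exact_mod_cast hq
  have hq0 : (0 : ℝ) < q := by linarith
  have hqpow : 0 < (q : ℝ) ^ (-(2 + η)) := Real.rpow_pos_of_pos hq0 _
  have hqle : (q : ℝ) ^ (-(2 + η)) ≤ 1 := Real.rpow_le_one_of_one_le_of_nonpos hqR (by linarith)
  rcases le_or_gt 1 |Real.pi - (p : ℝ) / q| with hbig | hsmall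
  · calc min 1 c₁ * (q : ℝ) ^ (-(2 + η)) ≤ 1 * 1 :=
          mul_le_mul (min_le_left _ _) hqle hqpow.le zero_le_one
      _ = 1 := one_mul 1
      _ ≤ _ := hbig
  · have hp : |(p : ℝ)| ≤ 5 * q := by
      have h1 : |(p : ℝ) / q| ≤ 5 := by
        have h2 : |(p : ℝ) / q| ≤ |Real.pi - (p : ℝ) / q| + |Real.pi| := by
          have := abs_sub_abs_le_abs_sub ((p : ℝ) / q) Real.pi
          rw [abs_sub_comm] at this
          linarith
        have h3 : |Real.pi| ≤ 4 := by rw [abs_of_pos Real.pi_pos]; exact Real.pi_le_four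
        linarith
      rw [abs_div, abs_of_pos hq0, div_le_iff₀ hq0] at h1
      exact h1
    set H : ℝ := K * q with hH
    have hH1 : 1 ≤ H := by
      rw [hH]
      nlinarith
    -- the form `-(A q + B p) + (d q) e = B (q π - p)`
    have hval := hM (-(A * q + B * p)) (fun _ => (d : ℤ) * q) (Or.inr (by
      intro h0
      have := congrFun h0 0
      simp only [Pi.zero_apply, mul_eq_zero] at this
      rcases this with h1 | h1
      · have : d = 0 := by exact_mod_cast h1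
        omega
      · have : q = 0 := by exact_mod_cast h1
        omega)) H hH1 (by
      push_cast
      have h1 : |-((A : ℝ) * q + B * p)| ≤ |(A : ℝ)| * q + |(B : ℝ)| * (5 * q) := by
        rw [abs_neg]
        refine (abs_add_le _ _).trans ?_
        rw [abs_mul, abs_mul, abs_of_pos hq0]
        have := mul_le_mul_of_nonneg_left hp (abs_nonneg (B : ℝ))
        linarith
      refine h1.trans ?_
      rw [hH, hK]
      have : 0 ≤ (d : ℝ) * q := by positivity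
      nlinarith) (by
      intro _
      push_cast
      rw [abs_of_nonneg (by positivity), hH, hK]
      have h2 := abs_nonneg (A : ℝ)
      have h3 := abs_nonneg (B : ℝ)
      nlinarith [mul_nonneg h2 hq0.le, mul_nonneg h3 hq0.le])
    have hform : (((-(A * q + B * p) : ℤ)) : ℝ) + ∑ _s : Fin 1, ((((d : ℤ) * q : ℤ)) : ℝ) *
        Real.exp ((1 : ℕ) : ℝ) = (B : ℝ) * (q * (Real.pi - p / q)) := by
      rw [Fin.sum_univ_one, Nat.cast_one]
      push_cast
      have : (q : ℝ) * (Real.pi - p / q) = q * Real.pi - p := by field_simp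
      rw [this]
      linear_combination (q : ℝ) * hmain
    rw [hform] at hval
    rw [abs_mul, abs_mul, abs_of_pos hq0] at hval
    -- conclude
    have hcast : ((1 : ℕ) : ℝ) + η = 1 + η := by norm_num
    rw [hcast, hH, Real.mul_rpow (by linarith) hq0.le] at hval
    have hKp : 0 < K ^ (1 + η) := Real.rpow_pos_of_pos (by linarith) _
    have hBp : 0 < |(B : ℝ)| := abs_pos.2 hBR
    have hq2 : (q : ℝ) ^ (-(2 + η)) * ((q : ℝ) ^ (1 + η) * q) = 1 := by
      have : (q : ℝ) ^ (1 + η) * q = (q : ℝ) ^ (2 + η) := by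
        rw [← Real.rpow_add_one hq0.ne']
        congr 1
        ring
      rw [this, ← Real.rpow_add hq0]
      simp
    have h5 : c₁ ≤ (q : ℝ) ^ (1 + η) * q * |Real.pi - p / q| := by
      rw [hc1, div_le_iff₀ (by positivity)]
      calc c₀ ≤ K ^ (1 + η) * (q : ℝ) ^ (1 + η) * (|(B : ℝ)| * (q * |Real.pi - p / q|)) := hval
        _ = _ := by ring
    calc min 1 c₁ * (q : ℝ) ^ (-(2 + η)) ≤ c₁ * (q : ℝ) ^ (-(2 + η)) :=
          mul_le_mul_of_nonneg_right (min_le_right _ _) hqpow.le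
      _ ≤ ((q : ℝ) ^ (1 + η) * q * |Real.pi - p / q|) * (q : ℝ) ^ (-(2 + η)) :=
          mul_le_mul_of_nonneg_right h5 hqpow.le
      _ = ((q : ℝ) ^ (-(2 + η)) * ((q : ℝ) ^ (1 + η) * q)) * |Real.pi - p / q| := by ring
      _ = |Real.pi - p / q| := by rw [hq2, one_mul]

end Pool.Agent.V11252.NP
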