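import Pool.Agent.V11252.NP.Twelve

/-!
# The exceptional cases for `π + e`, `π e`, `π ^ e`, `e ^ e`, `π ^ π`
-/

set_option autoImplicit false

namespace Pool.Agent.V11252.NP

open Pool.Agent.H301R2.SSE Pool.Agent.H340R2 Pool.Agent.H462R2.PiE Pool.Agent.H137R5.Tow
open Pool.Agent.H301R2.Nine (L L_pos pi_log)

theorem mem_of_exp {x : ℝ} (h : IsAlgebraic ℚ (Real.exp x)) : ((x : ℝ) : ℂ) ∈ Lt := by
  have := log_mem' (Real.exp_pos x) h
  rwa [Real.log_exp] at this

/-- `log π` is transcendental if `π ^ π` is algebraic -/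
theorem L_tr (hB : IsAlgebraic ℚ (Real.exp (Real.pi * L))) : Transcendental ℚ L := by
  intro h
  apply exp_mul_pi_tr h L_pos.ne'
  rw [mul_comm]
  exact hB

/-- three numbers with a common multiplier, in real form -/
theorem coreR (b : ℝ) (hb : Transcendental ℚ b) (y0 y1 y2 : ℝ)
    (hy : Ind3 (y0 : ℂ) (y1 : ℂ) (y2 : ℂ)) (h0 : ((y0 : ℝ) : ℂ) ∈ Lt) (h1 : ((y1 : ℝ) : ℂ) ∈ Lt)
    (h2 : ((y2 : ℝ) : ℂ) ∈ Lt) (k0 : ((b * y0 : ℝ) : ℂ) ∈ Lt) (k1 : ((b * y1 : ℝ) : ℂ) ∈ Lt) :
    ¬ InP (Real.exp (b * y2)) := by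
  intro hcon
  rw [mem_exp] at hcon
  push_cast at k0 k1 hcon
  exact core b hb _ _ _ hy h0 h1 h2 k0 k1 hcon

section A

variable (hC : IsAlgebraic ℚ (Real.exp (Real.exp 1)))
  (hD : IsAlgebraic ℚ (Real.exp (Real.exp 1 * L)))
  (hB : IsAlgebraic ℚ (Real.exp (Real.pi * L)))
include hC hD hB

theorem A_pi : ¬ InP Real.pi := by
  intro h
  have h1 : ¬ InP (Real.exp (L * 1)) := by
    refine coreR L (L_tr hB) (Real.exp 1) Real.pi 1 ?_ (mem_of_exp hC) pi_mem ?_ ?_ ?_
    · intro a c d ha hc hd hs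
      have := pi_log (Real.exp_ne_zero 1) hC hd hc ha (by
        push_cast at hs ⊢
        linear_combination hs)
      exact ⟨this.2.2, this.2.1, this.1⟩
    · rw [Complex.ofReal_one]; exact Lt_one
    · rw [mul_comm]; exact mem_of_exp hD
    · rw [mul_comm]; exact mem_of_exp hB
  apply h1
  rw [mul_one, L, Real.exp_log Real.pi_pos]
  exact h

theorem A_pow {t : ℝ} (ht : 0 < t) (hta : IsAlgebraic ℚ t)
    (hi : MInd ![Real.exp (Real.exp 1), t]) : ¬ InP (t ^ Real.log Real.pi) := by
  have h1 : ¬ InP (Real.exp (L * Real.log t)) := by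
    refine coreR L (L_tr hB) (Real.exp 1) Real.pi (Real.log t) ?_ (mem_of_exp hC) pi_mem
      (log_mem' ht hta) ?_ ?_
    · intro a c d ha hc hd hs
      have hr := ratInd ![Real.exp (Real.exp 1), t] (by
        intro i
        fin_cases i
        · exact Real.exp_pos _
        · exact ht) hi
      have := bkn (fun i => Real.log ((![Real.exp (Real.exp 1), t] : Fin 2 → ℝ) i)) (fun i => by
          fin_cases i
          · change IsAlgebraic ℚ (Real.exp (Real.log (Real.exp (Real.exp 1))))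
            rw [Real.log_exp]
            exact hC
          · change IsAlgebraic ℚ (Real.exp (Real.log t))
            rw [Real.exp_log ht]
            exact hta) hr 0 c ![a, d] isAlgebraic_zero hc (by
          intro i
          fin_cases i
          · exact ha
          · exact hd) (by
          rw [Fin.sum_univ_two]
          simp only [Matrix.cons_val_zero, Matrix.cons_val_one]
          rw [Real.log_exp]
          linear_combination hs)
      exact ⟨this.2.1 0, this.2.2, this.2.1 1⟩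
    · rw [mul_comm]; exact mem_of_exp hD
    · rw [mul_comm]; exact mem_of_exp hB
  rw [Real.rpow_def_of_pos ht, mul_comm]
  exact h1

theorem A_kappa_tr : Transcendental ℚ (Real.pi / Real.exp 1) := by
  intro h
  have := pi_log (Real.exp_ne_zero 1) hC (a := 0) (b := -1) (c := ((Real.pi / Real.exp 1 : ℝ) : ℂ))
    isAlgebraic_zero isAlgebraic_one.neg (alg_ofReal h) (by
      have h2 : (Real.exp 1 : ℂ) ≠ 0 := by exact_mod_cast Real.exp_ne_zero 1
      rw [Complex.ofReal_div]
      field_simp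
      ring)
  exact absurd this.2.1 (by norm_num)

/-- `e ^ (π / e)` -/
theorem A_pie : ¬ InP (Real.exp (Real.pi / Real.exp 1)) := by
  have he0 : Real.exp 1 ≠ 0 := Real.exp_ne_zero 1
  have h1 := coreR (Real.pi / Real.exp 1) (A_kappa_tr hC hD hB) (Real.exp 1) (L * Real.exp 1) 1 (by
    intro a c d ha hc hd hs
    have := bkn ![Real.exp 1, L * Real.exp 1] (fun i => by
        fin_cases i
        · exact hC
        · change IsAlgebraic ℚ (Real.exp (L * Real.exp 1))
          rw [mul_comm]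
          exact hD) (pair_ind L (L_tr hB) (Real.exp 1) he0) d 0 ![a, c] hd isAlgebraic_zero (by
        intro i
        fin_cases i
        · exact ha
        · exact hc) (by
        rw [Fin.sum_univ_two]
        simp only [Matrix.cons_val_zero, Matrix.cons_val_one]
        push_cast at hs ⊢
        linear_combination hs)
    exact ⟨this.2.1 0, this.2.1 1, this.1⟩) (mem_of_exp hC) (by rw [mul_comm]; exact mem_of_exp hD)
    (by rw [Complex.ofReal_one]; exact Lt_one)
    (by rw [div_mul_cancel₀ _ he0]; exact pi_mem)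
    (by
      rw [show Real.pi / Real.exp 1 * (L * Real.exp 1) = Real.pi * L by field_simp]
      exact mem_of_exp hB)
  rwa [mul_one] at h1

/-- `e ^ (e / π)` -/
theorem A_epi : ¬ InP (Real.exp (Real.exp 1 / Real.pi)) := by
  have hp0 : Real.pi ≠ 0 := Real.pi_ne_zero
  have htr : Transcendental ℚ (Real.exp 1 / Real.pi) := by
    intro h
    apply A_kappa_tr hC hD hB
    have := h.inv
    rwa [inv_div] at this
  have h1 := coreR (Real.exp 1 / Real.pi) htr Real.pi (Real.pi * L) 1 (by
    intro a c d ha hc hd hs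
    have := pi_log (mul_ne_zero hp0 L_pos.ne') hB hd ha hc (by
      push_cast at hs ⊢
      linear_combination hs)
    exact ⟨this.2.1, this.2.2, this.1⟩) pi_mem (mem_of_exp hB)
    (by rw [Complex.ofReal_one]; exact Lt_one)
    (by rw [div_mul_cancel₀ _ hp0]; exact mem_of_exp hC)
    (by
      rw [show Real.exp 1 / Real.pi * (Real.pi * L) = Real.exp 1 * L by field_simp]
      exact mem_of_exp hD)
  rwa [mul_one] at h1

/-- `e ^ (1 / log π)` -/
theorem A_inv : ¬ InP (Real.exp (1 / Real.log Real.pi)) := by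
  have hL0 : L ≠ 0 := L_pos.ne'
  have he0 : Real.exp 1 ≠ 0 := Real.exp_ne_zero 1
  have htr : Transcendental ℚ (1 / L) := by
    intro h
    apply L_tr hB
    have := h.inv
    rwa [one_div, inv_inv] at this
  have h1 := coreR (1 / L) htr (Real.exp 1 * L) (Real.pi * L) 1 (by
    intro a c d ha hc hd hs
    have hpi : Real.pi / Real.exp 1 * (Real.exp 1 * L) = Real.pi * L := by field_simp
    have := bkn ![Real.exp 1 * L, Real.pi / Real.exp 1 * (Real.exp 1 * L)] (fun i => by
        fin_cases i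
        · exact hD
        · change IsAlgebraic ℚ (Real.exp (Real.pi / Real.exp 1 * (Real.exp 1 * L)))
          rw [hpi]
          exact hB) (pair_ind _ (A_kappa_tr hC hD hB) (Real.exp 1 * L) (mul_ne_zero he0 hL0)) d 0
      ![a, c] hd isAlgebraic_zero (by
        intro i
        fin_cases i
        · exact ha
        · exact hc) (by
        rw [Fin.sum_univ_two]
        simp only [Matrix.cons_val_zero, Matrix.cons_val_one]
        rw [hpi]
        push_cast at hs ⊢
        linear_combination hs)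
    exact ⟨this.2.1 0, this.2.1 1, this.1⟩) (mem_of_exp hD) (mem_of_exp hB)
    (by rw [Complex.ofReal_one]; exact Lt_one)
    (by rw [show 1 / L * (Real.exp 1 * L) = Real.exp 1 by field_simp]; exact mem_of_exp hC)
    (by rw [show 1 / L * (Real.pi * L) = Real.pi by field_simp]; exact pi_mem)
  rwa [mul_one] at h1

end A

section B

variable (h0 : IsAlgebraic ℚ (Real.pi + Real.exp 1))
  (hD : IsAlgebraic ℚ (Real.exp (Real.exp 1 * L)))
  (hB : IsAlgebraic ℚ (Real.exp (Real.pi * L)))
include h0 hD hB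

theorem B_X : IsAlgebraic ℚ (Real.exp ((Real.pi + Real.exp 1) * L)) := by
  rw [add_mul, Real.exp_add]
  exact hB.mul hD

theorem B_ne : (Real.pi + Real.exp 1) * L ≠ 0 := mul_ne_zero (by positivity) L_pos.ne'

theorem B_L : ((L : ℝ) : ℂ) ∈ Lt := by
  have h1 := mem_of_exp (B_X h0 hD hB)
  have hne : ((Real.pi + Real.exp 1 : ℝ) : ℂ) ≠ 0 := by
    have : Real.pi + Real.exp 1 ≠ 0 := by positivity
    exact_mod_cast this
  have h2 : ((L : ℝ) : ℂ) = ((Real.pi + Real.exp 1 : ℝ) : ℂ)⁻¹ *
      (((Real.pi + Real.exp 1) * L : ℝ) : ℂ) := by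
    rw [Complex.ofReal_mul, ← mul_assoc, inv_mul_cancel₀ hne, one_mul]
  rw [h2]
  exact Lt_mul (alg_ofReal h0).inv h1

theorem B_piP : InP Real.pi := ⟨Real.pi_pos, B_L h0 hD hB⟩

theorem B_ind : Ind3 (1 : ℂ) (Real.pi : ℂ) ((L : ℝ) : ℂ) := by
  intro p q d hp hq hd hs
  have hne : ((Real.pi + Real.exp 1 : ℝ) : ℂ) ≠ 0 := by
    have : Real.pi + Real.exp 1 ≠ 0 := by positivity
    exact_mod_cast this
  have h3 := pi_log (B_ne h0 hD hB) (B_X h0 hD hB) (a := p) (b := q)
    (c := d * ((Real.pi + Real.exp 1 : ℝ) : ℂ)⁻¹) hp hq (hd.mul (alg_ofReal h0).inv) (by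
      rw [Complex.ofReal_mul, mul_assoc, ← mul_assoc _⁻¹, inv_mul_cancel₀ hne, one_mul]
      linear_combination hs)
  exact ⟨h3.1, h3.2.1, (mul_eq_zero.1 h3.2.2).resolve_right (inv_ne_zero hne)⟩

theorem B_sq : ¬ InP (Real.exp (Real.pi ^ 2)) := by
  intro h
  rw [mem_exp, pi_two_eq] at h
  have h2 := mem_of_exp hB
  rw [Complex.ofReal_mul] at h2
  refine core Real.pi LW.transcendental_pi 1 (Real.pi : ℂ) ((L : ℝ) : ℂ) (B_ind h0 hD hB) Lt_one
    pi_mem (B_L h0 hD hB) ?_ h h2
  rw [mul_one]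
  exact pi_mem

theorem B_pipi : ¬ InP (Real.pi ^ Real.log Real.pi) := by
  have h1 := coreR L (L_tr hB) 1 Real.pi L (by
    rw [Complex.ofReal_one]; exact B_ind h0 hD hB) (by rw [Complex.ofReal_one]; exact Lt_one)
    pi_mem (B_L h0 hD hB) (by rw [mul_one]; exact B_L h0 hD hB)
    (by rw [mul_comm]; exact mem_of_exp hB)
  rw [Real.rpow_def_of_pos Real.pi_pos]
  exact h1

theorem B_pow {t : ℝ} (ht : 0 < t) (hta : IsAlgebraic ℚ t) (h1 : t ≠ 1) :
    ¬ InP (t ^ Real.log Real.pi) := by
  have h2 := coreR L (L_tr hB) 1 Real.pi (Real.log t) (by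
    rw [Complex.ofReal_one]; exact ind_log ht hta h1) (by rw [Complex.ofReal_one]; exact Lt_one)
    pi_mem (log_mem' ht hta) (by rw [mul_one]; exact B_L h0 hD hB)
    (by rw [mul_comm]; exact mem_of_exp hB)
  rw [Real.rpow_def_of_pos ht, mul_comm]
  exact h2

/-- the number `π + e` is irrational -/
theorem B_irr : Irrational (Real.pi + Real.exp 1) := by
  by_contra h
  refine Pool.Agent.H364R2.PiE.sum_pow h ?_ ?_
  · rw [Real.rpow_def_of_pos Real.pi_pos, mul_comm]
    exact hD
  · rw [Real.rpow_def_of_pos Real.pi_pos, mul_comm]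
    exact hB

theorem B_dep {t : ℝ} (ht : 0 < t) (hta : IsAlgebraic ℚ t) (h1 : t ≠ 1)
    (hP : InP (t ^ Real.pi)) :
    ∃ c : ℝ, IsAlgebraic ℚ c ∧ (∀ r : ℚ, c ≠ r) ∧ Real.log t = c * L := by
  have hl0 : Real.log t ≠ 0 := log_ne ht h1
  have hL0 : L ≠ 0 := L_pos.ne'
  have hs0 : Real.pi + Real.exp 1 ≠ 0 := by positivity
  have hsc : ((Real.pi + Real.exp 1 : ℝ) : ℂ) ≠ 0 := by exact_mod_cast hs0
  have hBm := mem_of_exp hB
  rw [Complex.ofReal_mul] at hBm
  by_cases hdep : ∀ p : Fin 2 → ℚ, ∑ i, (p i : ℝ) *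
      (![(Real.pi + Real.exp 1) * L, Real.log t] : Fin 2 → ℝ) i = 0 → ∀ i, p i = 0
  · exfalso
    refine core Real.pi LW.transcendental_pi 1 ((L : ℝ) : ℂ) ((Real.log t : ℝ) : ℂ) ?_ Lt_one
      (B_L h0 hD hB) (log_mem' ht hta) ?_ hBm ((inP_rpow ht).1 hP)
    · intro a c d ha' hc hd hs
      have := bkn ![(Real.pi + Real.exp 1) * L, Real.log t] (fun i => by
          fin_cases i
          · exact B_X h0 hD hB
          · change IsAlgebraic ℚ (Real.exp (Real.log t))
            rw [Real.exp_log ht]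
            exact hta) hdep a 0 ![c * ((Real.pi + Real.exp 1 : ℝ) : ℂ)⁻¹, d] ha' isAlgebraic_zero
        (by
          intro i
          fin_cases i
          · exact hc.mul (alg_ofReal h0).inv
          · exact hd) (by
          rw [Fin.sum_univ_two]
          simp only [Matrix.cons_val_zero, Matrix.cons_val_one]
          rw [zero_mul, add_zero, Complex.ofReal_mul, mul_assoc, ← mul_assoc _⁻¹,
            inv_mul_cancel₀ hsc, one_mul]
          linear_combination hs)
      refine ⟨this.1, ?_, this.2.1 1⟩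
      exact (mul_eq_zero.1 (this.2.1 0)).resolve_right (inv_ne_zero hsc)
    · rw [mul_one]
      exact pi_mem
  · push Not at hdep
    obtain ⟨p, hp, i, hi⟩ := hdep
    rw [Fin.sum_univ_two] at hp
    simp only [Matrix.cons_val_zero, Matrix.cons_val_one] at hp
    have hp1 : p 1 ≠ 0 := by
      intro h0'
      rw [h0', Rat.cast_zero, zero_mul, add_zero] at hp
      have : (p 0 : ℝ) = 0 := (mul_eq_zero.1 hp).resolve_right (B_ne h0 hD hB)
      have hp0 : p 0 = 0 := by exact_mod_cast this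
      apply hi
      fin_cases i
      · exact hp0
      · exact h0'
    have hp0 : p 0 ≠ 0 := by
      intro h0'
      rw [h0', Rat.cast_zero, zero_mul, zero_add] at hp
      have : (p 1 : ℝ) = 0 := (mul_eq_zero.1 hp).resolve_right hl0
      exact hp1 (by exact_mod_cast this)
    have hp1R : (p 1 : ℝ) ≠ 0 := by exact_mod_cast hp1
    have hp0R : (p 0 : ℝ) ≠ 0 := by exact_mod_cast hp0
    refine ⟨((-p 0 / p 1 : ℚ) : ℝ) * (Real.pi + Real.exp 1), ?_, ?_, ?_⟩
    · have := isAlgebraic_algebraMap (R := ℚ) (A := ℝ) (-p 0 / p 1)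
      exact IsAlgebraic.mul this h0
    · intro r hr
      refine B_irr h0 hD hB ⟨r / (-p 0 / p 1), ?_⟩
      rw [Rat.cast_div, ← hr]
      have : ((-p 0 / p 1 : ℚ) : ℝ) ≠ 0 := by
        push_cast
        exact div_ne_zero (neg_ne_zero.2 hp0R) hp1R
      exact mul_div_cancel_left₀ _ this
    · push_cast
      field_simp
      linear_combination hp

theorem B_tr {t : ℝ} (ht : 0 < t) (hta : IsAlgebraic ℚ t) (h1 : t ≠ 1) :
    Transcendental ℚ (t ^ Real.pi) ∧ Transcendental ℚ (t ^ Real.exp 1) := by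
  have R := rel_add h0
  have hL0 : L ≠ 0 := L_pos.ne'
  constructor
  · intro hcon
    obtain ⟨c, hc, hcr, hlog⟩ := B_dep h0 hD hB ht hta h1
      (inP_alg (Real.rpow_pos_of_pos ht _) hcon)
    obtain ⟨r, hr⟩ := Pool.Agent.Y920.NineBW.gs (l := Real.pi * Real.log t) (m := Real.pi * L)
      (c := c) (by
        rw [mul_comm, ← Real.rpow_def_of_pos ht]
        exact hcon) hB hc (by rw [hlog]; ring) (mul_ne_zero Real.pi_ne_zero hL0)
    exact hcr r hr
  · intro hcon
    have hP : InP (t ^ Real.pi) :=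
      (R.pow_iff (inP_alg ht hta)).1 (inP_alg (Real.rpow_pos_of_pos ht _) hcon)
    obtain ⟨c, hc, hcr, hlog⟩ := B_dep h0 hD hB ht hta h1 hP
    obtain ⟨r, hr⟩ := Pool.Agent.Y920.NineBW.gs (l := Real.exp 1 * Real.log t)
      (m := Real.exp 1 * L) (c := c) (by
        rw [mul_comm, ← Real.rpow_def_of_pos ht]
        exact hcon) hD hc (by rw [hlog]; ring) (mul_ne_zero (Real.exp_ne_zero 1) hL0)
    exact hcr r hr

end B

end Pool.Agent.V11252.NP
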