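import Pool.Agent.V11252.NP.Basic
import Pool.Agent.H137R5.TowTop

/-!
# A strong form of the five exponentials theorem for real exponents, and `e ^ (c π)`
-/

set_option autoImplicit false

namespace Pool.Agent.V11252.NP

open Pool.Agent.H301R2.SSE Pool.Agent.H340R2 Pool.Agent.H462R2.PiE Pool.Agent.H137R5.Tow

theorem pair_ind (b : ℝ) (hb : Transcendental ℚ b) (l : ℝ) (hl : l ≠ 0) (p : Fin 2 → ℚ)
    (hp : ∑ i, (p i : ℝ) * (![l, b * l] : Fin 2 → ℝ) i = 0) : ∀ i, p i = 0 := by
  rw [Fin.sum_univ_two] at hp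
  simp only [Matrix.cons_val_zero, Matrix.cons_val_one] at hp
  have h1 : (p 0 : ℝ) + p 1 * b = 0 := by
    apply mul_right_cancel₀ hl
    rw [zero_mul, ← hp]
    ring
  have h2 : p 1 = 0 := by
    by_contra hne
    apply hb
    have h3 : b = ((-p 0 / p 1 : ℚ) : ℝ) := by
      have : (p 1 : ℝ) ≠ 0 := by exact_mod_cast hne
      push_cast
      field_simp
      linear_combination h1
    rw [h3]
    have := isAlgebraic_algebraMap (R := ℚ) (A := ℝ) (-p 0 / p 1)
    exact this
  have h3 : p 0 = 0 := by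
    rw [h2] at h1
    have : (p 0 : ℝ) = 0 := by simpa using h1
    exact_mod_cast this
  intro i
  fin_cases i
  · exact h3
  · exact h2

/-- `b (u + v π)` in `Lt`, `e ^ l` and `e ^ (b l)` algebraic, `b ^ 2 l` in `Lt` is impossible -/
theorem five (b : ℝ) (hb : Transcendental ℚ b) (u v : ℂ) (hu : IsAlgebraic ℚ u)
    (hv : IsAlgebraic ℚ v) (huv : u ≠ 0 ∨ v ≠ 0) (hbuv : (b : ℂ) * (u + v * (Real.pi : ℂ)) ∈ Lt)
    (l : ℝ) (hl : l ≠ 0) (h1 : IsAlgebraic ℚ (Real.exp l)) (h2 : IsAlgebraic ℚ (Real.exp (b * l)))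
    (h3 : ((b ^ 2 * l : ℝ) : ℂ) ∈ Lt) : False := by
  have m1 : ((l : ℝ) : ℂ) ∈ Lt := by
    have := log_mem' (Real.exp_pos l) h1
    rwa [Real.log_exp] at this
  have m2 : ((b * l : ℝ) : ℂ) ∈ Lt := by
    have := log_mem' (Real.exp_pos (b * l)) h2
    rwa [Real.log_exp] at this
  refine core b hb (u + v * (Real.pi : ℂ)) ((l : ℝ) : ℂ) ((b * l : ℝ) : ℂ) ?_ (lt_uv hu hv) m1 m2
    hbuv ?_ ?_
  · intro a c d ha hc hd hs
    have := bkn ![l, b * l] (fun i => by
        fin_cases i
        · exact h1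
        · exact h2)
      (pair_ind b hb l hl) (a * u) (a * v) ![c, d] (ha.mul hu) (ha.mul hv) (by
        intro i
        fin_cases i
        · exact hc
        · exact hd) (by
        rw [Fin.sum_univ_two]
        simp only [Matrix.cons_val_zero, Matrix.cons_val_one]
        linear_combination hs)
    refine ⟨?_, this.2.1 0, this.2.1 1⟩
    rcases huv with h | h
    · exact (mul_eq_zero.1 this.1).resolve_right h
    · exact (mul_eq_zero.1 this.2.2).resolve_right h
  · have : (b : ℂ) * ((l : ℝ) : ℂ) = ((b * l : ℝ) : ℂ) := by push_cast; ring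
    rw [this]
    exact m2
  · have : (b : ℂ) * ((b * l : ℝ) : ℂ) = ((b ^ 2 * l : ℝ) : ℂ) := by push_cast; ring
    rw [this]
    exact h3

theorem exp_mul_pi_tr {c : ℝ} (hc : IsAlgebraic ℚ c) (h0 : c ≠ 0) :
    Transcendental ℚ (Real.exp (c * Real.pi)) := by
  intro h
  have := bkn (fun _ : Fin 1 => c * Real.pi) (fun _ => h) (by
      intro p hp i
      fin_cases i
      rw [Fin.sum_univ_one] at hp
      have h1 : c * Real.pi ≠ 0 := mul_ne_zero h0 Real.pi_ne_zero
      have : (p 0 : ℝ) = 0 := (mul_eq_zero.1 hp).resolve_right h1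
      exact_mod_cast this) 0 (c : ℂ) (fun _ => -1) isAlgebraic_zero (alg_ofReal hc)
      (fun _ => isAlgebraic_one.neg) (by
      rw [Fin.sum_univ_one]
      push_cast
      ring)
  exact absurd (this.2.1 0) (by norm_num)

end Pool.Agent.V11252.NP
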