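import Pool.Agent.V11252.NP.Dep2
import Pool.Agent.Y920.NineBW

/-!
# Sets of numbers which are not all algebraic
-/

set_option autoImplicit false

namespace Pool.Agent.V11252.NP

open Pool.Agent.H301R2.SSE Pool.Agent.H340R2 Pool.Agent.H462R2.PiE Pool.Agent.H137R5.Tow
open Pool.Agent.H301R2.Nine (L L_pos pi_log)

theorem mem_exp (x : ℝ) : InP (Real.exp x) ↔ ((x : ℝ) : ℂ) ∈ Lt := by
  unfold InP
  rw [Real.log_exp]
  exact ⟨fun h => h.2, fun h => ⟨Real.exp_pos x, h⟩⟩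

/-- `1`, `π`, `log α` are independent -/
theorem ind_log {α : ℝ} (hα : 0 < α) (ha : IsAlgebraic ℚ α) (h1 : α ≠ 1) :
    Ind3 1 (Real.pi : ℂ) ((Real.log α : ℝ) : ℂ) := by
  intro a c d ha' hc hd hs
  have := pi_log (log_ne hα h1) (by rw [Real.exp_log hα]; exact ha) ha' hc hd (by
    linear_combination hs)
  exact this

theorem pi_two_eq : ((Real.pi ^ 2 : ℝ) : ℂ) = (Real.pi : ℂ) * (Real.pi : ℂ) := by push_cast; ring

/-- `e ^ (π²)` and `α ^ π` -/
theorem x8_12 {α : ℝ} (hα : 0 < α) (ha : IsAlgebraic ℚ α) (h1 : α ≠ 1)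
    (c1 : InP (Real.exp (Real.pi ^ 2))) (c2 : InP (α ^ Real.pi)) : False := by
  rw [mem_exp, pi_two_eq] at c1
  refine core Real.pi LW.transcendental_pi _ _ _ (ind_log hα ha h1) Lt_one pi_mem
    (log_mem' hα ha) ?_ c1 ((inP_rpow hα).1 c2)
  rw [mul_one]
  exact pi_mem

/-- `e ^ e` algebraic, `e ^ (π²)`, `e ^ (π e)` -/
theorem x5_8_9 (h : IsAlgebraic ℚ (Real.exp (Real.exp 1))) (c1 : InP (Real.exp (Real.pi ^ 2)))
    (c2 : InP (Real.exp (Real.pi * Real.exp 1))) : False := by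
  rw [mem_exp, pi_two_eq] at c1
  rw [mem_exp] at c2
  refine core Real.pi LW.transcendental_pi 1 (Real.pi : ℂ) ((Real.exp 1 : ℝ) : ℂ) ?_ Lt_one pi_mem
    ?_ ?_ c1 ?_
  · intro a c d ha' hc hd hs
    exact pi_log (Real.exp_ne_zero 1) h ha' hc hd (by linear_combination hs)
  · have := log_mem' (Real.exp_pos (Real.exp 1)) h
    rwa [Real.log_exp] at this
  · rw [mul_one]
    exact pi_mem
  · push_cast at c2 ⊢
    exact c2

/-- `e ^ e` algebraic, `α ^ e`, `α ^ π` -/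
theorem x5_11_12 {α : ℝ} (hα : 0 < α) (ha : IsAlgebraic ℚ α) (h1 : α ≠ 1)
    (h : IsAlgebraic ℚ (Real.exp (Real.exp 1))) (c1 : InP (α ^ Real.exp 1))
    (c2 : InP (α ^ Real.pi)) : False := by
  rw [inP_rpow hα] at c1 c2
  refine core (Real.log α) (log_tr hα ha h1) 1 (Real.pi : ℂ) ((Real.exp 1 : ℝ) : ℂ) ?_ Lt_one pi_mem
    ?_ ?_ ?_ ?_
  · intro a c d ha' hc hd hs
    exact pi_log (Real.exp_ne_zero 1) h ha' hc hd (by linear_combination hs)
  · have := log_mem' (Real.exp_pos (Real.exp 1)) h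
    rwa [Real.log_exp] at this
  · rw [mul_one]
    exact log_mem' hα ha
  · rw [mul_comm]
    exact c2
  · rw [mul_comm]
    exact c1

theorem rel_add (h : IsAlgebraic ℚ (Real.pi + Real.exp 1)) :
    Rel (Real.pi + Real.exp 1) (-1) := ⟨h, isAlgebraic_one.neg, by ring⟩

theorem rel_sub (h : IsAlgebraic ℚ (Real.pi - Real.exp 1)) :
    Rel (-(Real.pi - Real.exp 1)) 1 := ⟨h.neg, isAlgebraic_one, by ring⟩

theorem rel_div (h : IsAlgebraic ℚ (Real.pi / Real.exp 1)) :
    Rel 0 (Real.pi / Real.exp 1)⁻¹ := ⟨isAlgebraic_zero, h.inv, by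
  have := Real.pi_ne_zero
  field_simp
  ring⟩

/-- a relation between `1`, `e`, `π`; `e ^ (π e)` and `α ^ e` -/
theorem x0_9_11 {a b : ℝ} (R : Rel a b) {α : ℝ} (hα : 0 < α) (ha : IsAlgebraic ℚ α) (h1 : α ≠ 1)
    (c1 : InP (Real.exp (Real.pi * Real.exp 1))) (c2 : InP (α ^ Real.exp 1)) : False := by
  rcases R.sq_excl hα ha h1 with h | h
  · exact h c2
  · exact h (R.sq_iff.2.2 c1)

/-- a relation between `1`, `e`, `π` with `a ≠ 0`; `e ^ (π e)`, `π ^ π` and `π ^ e` -/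
theorem x0_4_6_9 {a b : ℝ} (R : Rel a b) (ha0 : a ≠ 0)
    (hX : IsAlgebraic ℚ (Real.exp (a * L))) (c1 : InP (Real.exp (Real.pi * Real.exp 1)))
    (c2 : InP (Real.pi ^ Real.pi)) : False := by
  have haL : a * L ≠ 0 := mul_ne_zero ha0 L_pos.ne'
  have hac : (a : ℂ) ≠ 0 := by exact_mod_cast ha0
  have hLm : ((L : ℝ) : ℂ) ∈ Lt := by
    have h1 := log_mem' (Real.exp_pos (a * L)) hX
    rw [Real.log_exp] at h1
    have h2 : ((L : ℝ) : ℂ) = (a : ℂ)⁻¹ * ((a * L : ℝ) : ℂ) := by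
      push_cast
      field_simp
    rw [h2]
    exact Lt_mul (alg_ofReal R.ha).inv h1
  rw [← R.sq_iff.2, R.sq_iff.1, mem_exp, pi_two_eq] at c1
  have c2' := c2.2
  rw [Real.log_rpow Real.pi_pos] at c2'
  refine core Real.pi LW.transcendental_pi 1 (Real.pi : ℂ) ((L : ℝ) : ℂ) ?_ Lt_one pi_mem hLm ?_ c1
    ?_
  · intro p q d hp hq hd hs
    have h3 := pi_log haL hX (a := p) (b := q) (c := d * (a : ℂ)⁻¹) hp hq
      (hd.mul (alg_ofReal R.ha).inv) (by
        push_cast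
        field_simp
        linear_combination hs)
    refine ⟨h3.1, h3.2.1, ?_⟩
    exact (mul_eq_zero.1 h3.2.2).resolve_right (inv_ne_zero hac)
  · rw [mul_one]
    exact pi_mem
  · unfold L
    push_cast at c2' ⊢
    exact c2'

/-- `π ^ π`, `π ^ √2`, `α ^ π` -/
theorem x4_7_12 {α : ℝ} (hα : 0 < α) (ha : IsAlgebraic ℚ α) (h1 : α ≠ 1)
    (hB : IsAlgebraic ℚ (Real.exp (Real.pi * L))) (hE : IsAlgebraic ℚ (Real.exp (√2 * L)))
    (hC : IsAlgebraic ℚ (α ^ Real.pi)) : False := by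
  have hl0 : Real.log α ≠ 0 := log_ne hα h1
  have h2 : (√2 : ℝ) ≠ 0 := by positivity
  have h2a : IsAlgebraic ℚ (√2 : ℝ) := Pool.Agent.H301R2.Nine.alg_sqrt2
  have hL0 : L ≠ 0 := L_pos.ne'
  have hCexp : IsAlgebraic ℚ (Real.exp (Real.pi * Real.log α)) := by
    rw [mul_comm, ← Real.rpow_def_of_pos hα]
    exact hC
  have hLm : ((L : ℝ) : ℂ) ∈ Lt := by
    have h3 := log_mem' (Real.exp_pos (√2 * L)) hE
    rw [Real.log_exp] at h3
    have h4 : ((L : ℝ) : ℂ) = ((√2 : ℝ) : ℂ)⁻¹ * ((√2 * L : ℝ) : ℂ) := by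
      have : ((√2 : ℝ) : ℂ) ≠ 0 := by exact_mod_cast h2
      push_cast
      field_simp
    rw [h4]
    exact Lt_mul (alg_ofReal h2a).inv h3
  have hBm : (Real.pi : ℂ) * ((L : ℝ) : ℂ) ∈ Lt := by
    have h3 := log_mem' (Real.exp_pos (Real.pi * L)) hB
    rw [Real.log_exp] at h3
    push_cast at h3
    exact h3
  have hCm : (Real.pi : ℂ) * ((Real.log α : ℝ) : ℂ) ∈ Lt := by
    have h3 := log_mem' (Real.exp_pos (Real.pi * Real.log α)) hCexp
    rw [Real.log_exp] at h3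
    push_cast at h3
    rw [Complex.ofReal_log hα.le] at *
    exact h3
  by_cases hdep : ∀ p : Fin 2 → ℚ, ∑ i, (p i : ℝ) * (![√2 * L, Real.log α] : Fin 2 → ℝ) i = 0 →
      ∀ i, p i = 0
  · refine core Real.pi LW.transcendental_pi 1 ((L : ℝ) : ℂ) ((Real.log α : ℝ) : ℂ) ?_ Lt_one hLm
      (log_mem' hα ha) ?_ hBm hCm
    · intro a c d ha' hc hd hs
      have hs2 : ((√2 : ℝ) : ℂ) ≠ 0 := by exact_mod_cast h2
      have := bkn ![√2 * L, Real.log α] (fun i => by
          fin_cases i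
          · exact hE
          · change IsAlgebraic ℚ (Real.exp (Real.log α))
            rw [Real.exp_log hα]
            exact ha) hdep a 0 ![c * ((√2 : ℝ) : ℂ)⁻¹, d] ha' isAlgebraic_zero (by
          intro i
          fin_cases i
          · exact hc.mul (alg_ofReal h2a).inv
          · exact hd) (by
          rw [Fin.sum_univ_two]
          simp only [Matrix.cons_val_zero, Matrix.cons_val_one]
          push_cast
          rw [zero_mul, add_zero]
          have hs3 : c * (((√2 : ℝ) : ℂ))⁻¹ * (((√2 : ℝ) : ℂ) * ((L : ℝ) : ℂ)) =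
            c * ((L : ℝ) : ℂ) := by field_simp
          rw [hs3]
          linear_combination hs)
      refine ⟨this.1, ?_, this.2.1 1⟩
      exact (mul_eq_zero.1 (this.2.1 0)).resolve_right (inv_ne_zero hs2)
    · rw [mul_one]
      exact pi_mem
  · push Not at hdep
    obtain ⟨p, hp, i, hi⟩ := hdep
    rw [Fin.sum_univ_two] at hp
    simp only [Matrix.cons_val_zero, Matrix.cons_val_one] at hp
    have hp1 : p 1 ≠ 0 := by
      intro h0
      rw [h0, Rat.cast_zero, zero_mul, add_zero] at hp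
      have : (p 0 : ℝ) = 0 := (mul_eq_zero.1 hp).resolve_right (mul_ne_zero h2 hL0)
      have hp0 : p 0 = 0 := by exact_mod_cast this
      apply hi
      fin_cases i
      · exact hp0
      · exact h0
    have hp0 : p 0 ≠ 0 := by
      intro h0
      rw [h0, Rat.cast_zero, zero_mul, zero_add] at hp
      have : (p 1 : ℝ) = 0 := (mul_eq_zero.1 hp).resolve_right hl0
      exact hp1 (by exact_mod_cast this)
    have hp1R : (p 1 : ℝ) ≠ 0 := by exact_mod_cast hp1
    have hp0R : (p 0 : ℝ) ≠ 0 := by exact_mod_cast hp0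
    -- `L = c log α`, `c = -(p 1 / p 0) / √2`
    have hLeq : L = (-(p 1 : ℝ) / p 0 / √2) * Real.log α := by
      field_simp
      linear_combination hp
    obtain ⟨r, hr⟩ := Pool.Agent.Y920.NineBW.gs (l := Real.pi * L) (m := Real.pi * Real.log α)
      (c := -(p 1 : ℝ) / p 0 / √2) hB hCexp (by
        rw [div_eq_mul_inv]
        refine IsAlgebraic.mul ?_ h2a.inv
        have := isAlgebraic_algebraMap (R := ℚ) (A := ℝ) (-p 1 / p 0)
        simpa using this) (by
        rw [hLeq]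
        ring) (mul_ne_zero Real.pi_ne_zero hl0)
    -- so `√2` is rational
    have hirr : Irrational (√2 : ℝ) := irrational_sqrt_two
    have hr0 : (r : ℝ) ≠ 0 := by
      rw [← hr]
      exact div_ne_zero (div_ne_zero (neg_ne_zero.2 hp1R) hp0R) h2
    apply hirr
    refine ⟨-(p 1) / p 0 / r, ?_⟩
    push_cast
    rw [← hr]
    field_simp

end Pool.Agent.V11252.NP
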